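import Pool.Agent.C4F.StmtsP

/-!
Squad C4F, row CMP
-/

set_option autoImplicit false

namespace Pool.Agent.C4F.H66

theorem cn_lt {P : ℕ → Prop} {v n : ℕ} (hv : P v) (h : v < n) : cn P v < cn P n := by
  classical
  unfold cn
  exact Nat.count_strict_mono hv h

theorem cn_inj {P : ℕ → Prop} {v w : ℕ} (hv : P v) (hw : P w) (h : cn P v = cn P w) : v = w := by
  rcases lt_trichotomy v w with h1 | h1 | h1
  · exact absurd (cn_lt hv h1) (by omega)
  · exact h1
  · exact absurd (cn_lt hw h1) (by omega)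

open Classical in
/-- the bits of the vertex of a clique with the set of variables `P` -/
noncomputable def bb (σ : ℕ → Bool) (n : ℕ) (P : ℕ → Prop) (t : ℕ) : Bool :=
  decide (∃ v < n, P v ∧ cn P v = t ∧ σ v = true)

theorem bb_eq (σ : ℕ → Bool) (n : ℕ) (P : ℕ → Prop) {v : ℕ} (hv : v < n) (hP : P v) :
    bb σ n P (cn P v) = σ v := by
  classical
  unfold bb
  by_cases h : σ v = true
  · rw [h]
    simp only [decide_eq_true_eq]
    exact ⟨v, hv, hP, rfl, h⟩
  · have h' : σ v = false := by simpa using h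
    rw [h']
    simp only [decide_eq_false_iff_not]
    rintro ⟨w, -, hw, hwv, hσ⟩
    rw [cn_inj hw hP hwv] at hσ
    exact h hσ

theorem vs_cyc (D : Dat) {i j : ℕ} (h : D.Cyc i j) : D.VS i = D.VS j := by
  obtain ⟨h1, h2, h3, h4, -⟩ := h
  have hca : D.ca i = D.ca j := by
    unfold Dat.ca
    rw [h1]
  have hcb : D.cb i = D.cb j := by
    unfold Dat.cb
    have hd : D.q ∣ D.q ^ 2 := dvd_pow_self _ (by norm_num)
    rw [← Nat.mod_mod_of_dvd i hd, ← Nat.mod_mod_of_dvd j hd, h1]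
  have hlt : D.kc i < 5 ↔ D.kc j < 5 := by omega
  have hle : (5 ≤ D.kc i ∧ D.kc i < 10) ↔ (5 ≤ D.kc j ∧ D.kc j < 10) := by omega
  funext v
  apply propext
  unfold Dat.VS
  rw [hca, hcb, hlt]
  constructor
  · rintro (h | h | h)
    · exact Or.inl h
    · exact Or.inr (Or.inl h)
    · exact Or.inr (Or.inr ⟨(hle.1 ⟨h.1, h.2.1⟩).1, (hle.1 ⟨h.1, h.2.1⟩).2, h.2.2⟩)
  · rintro (h | h | h)
    · exact Or.inl h
    · exact Or.inr (Or.inl h)
    · exact Or.inr (Or.inr ⟨(hle.2 ⟨h.1, h.2.1⟩).1, (hle.2 ⟨h.1, h.2.1⟩).2, h.2.2⟩)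

theorem cmp (crd : CrdStmt) (num : NumStmt) : CmpStmt := by
  intro D hD hS
  obtain ⟨σ, hσ⟩ := hS
  let F : (ℕ → Prop) → ℕ := fun P => (num D.W (bb σ D.n P)).choose
  have hF1 : ∀ P, F P < 2 ^ D.W := fun P => (num D.W (bb σ D.n P)).choose_spec.1
  have hF2 : ∀ P, ∀ t < D.W, (F P).testBit (D.W - 1 - t) = bb σ D.n P t :=
    fun P => (num D.W (bb σ D.n P)).choose_spec.2
  have hbt : ∀ i v, v < D.n → D.VS i v → D.bt (F (D.VS i)) (D.rk i v) = σ v := by
    intro i v hv hvs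
    have hlt : D.rk i v < D.W := lt_of_lt_of_le (cn_lt hvs hv) (crd D hD i)
    unfold Dat.bt
    rw [hF2 _ _ hlt, decide_eq_true hlt, Bool.true_and]
    exact bb_eq σ D.n (D.VS i) hv hvs
  refine ⟨fun i => F (D.VS i), ?_, ?_⟩
  · intro i _
    refine ⟨hF1 _, ?_⟩
    rintro ⟨h0, h1, c, hc, hck, hl⟩
    obtain ⟨l, hl3, hsat⟩ := hσ c hc
    have hs : 3 * c + l < 3 * D.m := by omega
    have hvs : D.VS i (D.vr (3 * c + l)) := by
      refine Or.inl ⟨by omega, h1, 3 * c + l, hs, ?_, rfl⟩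
      unfold Dat.grp
      rw [show (3 * c + l) / 3 = c by omega]
      exact hck
    exact hl l hl3 ((hbt i _ (hD.vlt _ hs) hvs).trans hsat)
  · intro i _ j _ hE
    rcases hE with ⟨hc, hlt⟩ | ⟨-, v, hv, h1, h2, h3, h4, -⟩
    · simp only [vs_cyc D hc] at hlt
      exact absurd hlt (lt_irrefl _)
    · rw [hbt i v hv h1] at h3
      rw [hbt j v hv h2] at h4
      rw [h3] at h4
      exact absurd h4 (by decide)

end Pool.Agent.C4F.H66
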