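import Pool.Agent.C4F.StmtsP

/-!
Squad C4F, row CPT
-/

set_option autoImplicit false

namespace Pool.Agent.C4F.H66

theorem cpt (src : SrcStmt) : CptStmt := by
  classical
  intro D hD p
  refine le_trans ?_ ((src D hD).1 p)
  unfold cn
  rw [Nat.count_eq_card_filter_range, Nat.count_eq_card_filter_range]
  refine le_trans (Finset.card_le_card ?_) (Finset.card_image_le (f := D.vr))
  intro v hv
  obtain ⟨-, s, hs, hsp, hsv⟩ := Finset.mem_filter.1 hv
  refine Finset.mem_image.2 ⟨s, ?_, hsv⟩
  simp only [Finset.mem_filter, Finset.mem_range]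
  exact ⟨hs, hsp⟩

end Pool.Agent.C4F.H66
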