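import Pool.Agent.C4F.StmtsP

/-!
Squad C4F, row CRD
-/

set_option autoImplicit false

namespace Pool.Agent.C4F.H66

theorem cn_mono {P Q : ℕ → Prop} (h : ∀ v, P v → Q v) (n : ℕ) : cn P n ≤ cn Q n := by
  classical
  unfold cn
  exact Nat.count_mono_left (fun v _ hv => h v hv)

theorem crd (cpt : CptStmt) (crl : CrlStmt) (cln : ClnStmt) : CrdStmt := by
  intro D hD i
  by_cases h1 : D.kc i < 5
  · by_cases h2 : D.ca i < D.h
    · refine (cn_mono ?_ _).trans ((cpt D hD (D.ca i * D.q + D.cb i)).trans ?_)
      · rintro v (h | h | h)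
        · exact h.2.2
        · exact absurd h.2.1 (by omega)
        · exact absurd h.1 (by omega)
      · unfold Dat.W
        exact Nat.le_add_right _ _
    · refine (cn_mono ?_ _).trans (crl D hD ((D.ca i - D.h) * D.q + D.cb i))
      rintro v (h | h | h)
      · exact absurd h.2.1 h2
      · exact h.2.2.2
      · exact absurd h.1 (by omega)
  · refine (cn_mono ?_ _).trans (cln D hD (D.ca i) (D.cb i))
    rintro v (h | h | h)
    · exact absurd h.1 h1
    · exact absurd h.1 h1
    · exact h.2.2

end Pool.Agent.C4F.H66
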