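import Pool.Agent.C4F.StmtsP

/-!
Squad C4F, row INC
-/

set_option autoImplicit false

namespace Pool.Agent.C4F.H66

theorem onL_iff (D : Dat) (a b x y : ℕ) :
    D.OnL a b x y ↔ ((y : ℕ) : ZMod D.q) = (a : ZMod D.q) * x + b := by
  have h := ZMod.natCast_eq_natCast_iff' y (a * x + b) D.q
  unfold Dat.OnL
  rw [← h]
  push_cast
  rfl

theorem inc : IncStmt := by
  intro D hD p hp r hr
  have hq : Fact D.q.Prime := ⟨hD.prime⟩
  have hq3 := hD.three
  have hq0 : 0 < D.q := by omega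
  have hpq : p / D.q < D.h := (Nat.div_lt_iff_lt_mul hq0).2 hp
  have hrq : r / D.q < D.h := (Nat.div_lt_iff_lt_mul hq0).2 hr
  have hh : 2 * D.h ≤ D.q - 1 := by
    have : D.h = (D.q - 1) / 2 := rfl
    omega
  have hne : ((p / D.q : ℕ) : ZMod D.q) - ((D.h + r / D.q : ℕ) : ZMod D.q) ≠ 0 := by
    rw [sub_ne_zero]
    intro h
    have h1 := (ZMod.natCast_eq_natCast_iff' _ _ _).1 h
    have h2 : p / D.q < D.q := lt_of_lt_of_le hpq (by omega)
    have h3 : D.h + r / D.q < D.q := by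
      have := Nat.add_lt_add_left hrq D.h
      omega
    rw [Nat.mod_eq_of_lt h2, Nat.mod_eq_of_lt h3] at h1
    exact absurd h1 (ne_of_lt (lt_of_lt_of_le hpq (Nat.le_add_right _ _)))
  let x : ZMod D.q := ((p / D.q : ℕ) : ZMod D.q)
  let x' : ZMod D.q := ((D.h + r / D.q : ℕ) : ZMod D.q)
  let y : ZMod D.q := ((p % D.q : ℕ) : ZMod D.q)
  let y' : ZMod D.q := ((r % D.q : ℕ) : ZMod D.q)
  let a : ZMod D.q := (y - y') / (x - x')
  let b : ZMod D.q := y - a * x
  have hxx : x - x' ≠ 0 := hne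
  have ha : a * (x - x') = y - y' := div_mul_cancel₀ _ hxx
  refine ⟨a.val, ZMod.val_lt a, b.val, ZMod.val_lt b, ?_, ?_⟩
  · unfold Dat.OnP
    rw [onL_iff, ZMod.natCast_zmod_val, ZMod.natCast_zmod_val]
    change y = a * x + b
    simp only [b]
    ring
  · unfold Dat.OnR
    rw [onL_iff, ZMod.natCast_zmod_val, ZMod.natCast_zmod_val]
    change y' = a * x' + b
    simp only [b]
    linear_combination ha

end Pool.Agent.C4F.H66
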