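import Pool.Agent.C4F.StmtsP

/-!
Squad C4F, row NUM
-/

set_option autoImplicit false

namespace Pool.Agent.C4F.H66

theorem num : NumStmt := by
  intro W b
  refine ⟨Nat.ofBits (fun i : Fin W => b (W - 1 - i)), Nat.ofBits_lt_two_pow _, ?_⟩
  intro t ht
  have h1 : W - 1 - t < W := by omega
  rw [Nat.testBit_ofBits_lt _ _ h1]
  congr 1
  simp only
  omega

end Pool.Agent.C4F.H66
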